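import Pool.Agent.helper37.NG.Spec

set_option autoImplicit false

namespace Pool.Agent.helper37.NG

open Finset Pool.Agent.NK Pool.Agent.helper37.NF

lemma RT3_fac (a b : ℕ) : ((a + b).choose a : ℝ) * (a.factorial : ℝ) * (b.factorial : ℝ) = ((a + b).factorial : ℝ) := by
  have h := Nat.choose_mul_factorial_mul_factorial (Nat.le_add_right a b)
  rw [Nat.add_sub_cancel_left] at h
  exact_mod_cast h

lemma RT3_one (s m : ℕ) :
    ((m + s + 4).choose (s + 2) : ℝ) * (((m : ℝ) + s + 7) * (m + s + 6) * (m + s + 5)) =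
      ((s : ℝ) + 3) * (m + 4) * (m + 3) * ((m + s + 7).choose (s + 3) : ℝ) := by
  have h1 := RT3_fac (s + 2) (m + 2)
  have h2 := RT3_fac (s + 3) (m + 4)
  rw [show s + 2 + (m + 2) = m + s + 4 by ring] at h1
  rw [show s + 3 + (m + 4) = m + s + 7 by ring] at h2
  rw [show m + s + 7 = (m + s + 4) + 1 + 1 + 1 by ring, Nat.factorial_succ (m + s + 4 + 1 + 1), Nat.factorial_succ (m + s + 4 + 1),
    Nat.factorial_succ (m + s + 4), Nat.factorial_succ (s + 2), show m + 4 = m + 2 + 1 + 1 by ring, Nat.factorial_succ (m + 2 + 1),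
    Nat.factorial_succ (m + 2)] at h2
  push_cast at h2
  have hF : (0 : ℝ) < ((s + 2).factorial : ℝ) := by exact_mod_cast Nat.factorial_pos _
  have hG : (0 : ℝ) < ((m + 2).factorial : ℝ) := by exact_mod_cast Nat.factorial_pos _
  have hFG : ((s + 2).factorial : ℝ) * ((m + 2).factorial : ℝ) ≠ 0 := (mul_pos hF hG).ne'
  rw [show m + s + 7 = (m + s + 4) + 1 + 1 + 1 by ring]
  rw [← h1] at h2
  refine mul_right_cancel₀ hFG ?_
  linear_combination -h2

lemma RT3_two (s m : ℕ) :
    ((m + s + 4).choose s : ℝ) * (((m : ℝ) + s + 7) * (m + s + 6) * (m + s + 5)) =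
      ((s : ℝ) + 3) * (s + 2) * (s + 1) * ((m + s + 7).choose (s + 3) : ℝ) := by
  have h1 := RT3_fac s (m + 4)
  have h2 := RT3_fac (s + 3) (m + 4)
  rw [show s + (m + 4) = m + s + 4 by ring] at h1
  rw [show s + 3 + (m + 4) = m + s + 7 by ring] at h2
  rw [show m + s + 7 = (m + s + 4) + 1 + 1 + 1 by ring, Nat.factorial_succ (m + s + 4 + 1 + 1), Nat.factorial_succ (m + s + 4 + 1),
    Nat.factorial_succ (m + s + 4), Nat.factorial_succ (s + 2), Nat.factorial_succ (s + 1), Nat.factorial_succ s] at h2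
  push_cast at h2
  have hF : (0 : ℝ) < (s.factorial : ℝ) := by exact_mod_cast Nat.factorial_pos _
  have hG : (0 : ℝ) < ((m + 4).factorial : ℝ) := by exact_mod_cast Nat.factorial_pos _
  have hFG : (s.factorial : ℝ) * ((m + 4).factorial : ℝ) ≠ 0 := (mul_pos hF hG).ne'
  rw [show m + s + 7 = (m + s + 4) + 1 + 1 + 1 by ring]
  rw [← h1] at h2
  refine mul_right_cancel₀ hFG ?_
  linear_combination -h2

lemma RT3_thr (s m : ℕ) :
    ((m + s + 3).choose s : ℝ) * (((m : ℝ) + s + 7) * (m + s + 6) * (m + s + 5) * (m + s + 4)) =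
      ((s : ℝ) + 3) * (s + 2) * (s + 1) * (m + 4) * ((m + s + 7).choose (s + 3) : ℝ) := by
  have h1 := RT3_fac s (m + 3)
  have h2 := RT3_fac (s + 3) (m + 4)
  rw [show s + (m + 3) = m + s + 3 by ring] at h1
  rw [show s + 3 + (m + 4) = m + s + 7 by ring] at h2
  rw [show m + s + 7 = (m + s + 3) + 1 + 1 + 1 + 1 by ring, Nat.factorial_succ (m + s + 3 + 1 + 1 + 1), Nat.factorial_succ (m + s + 3 + 1 + 1),
    Nat.factorial_succ (m + s + 3 + 1),
    Nat.factorial_succ (m + s + 3), Nat.factorial_succ (s + 2), Nat.factorial_succ (s + 1), Nat.factorial_succ s,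
    Nat.factorial_succ (m + 3)] at h2
  push_cast at h2
  have hF : (0 : ℝ) < (s.factorial : ℝ) := by exact_mod_cast Nat.factorial_pos _
  have hG : (0 : ℝ) < ((m + 3).factorial : ℝ) := by exact_mod_cast Nat.factorial_pos _
  have hFG : (s.factorial : ℝ) * ((m + 3).factorial : ℝ) ≠ 0 := (mul_pos hF hG).ne'
  rw [show m + s + 7 = (m + s + 3) + 1 + 1 + 1 + 1 by ring]
  rw [← h1] at h2
  refine mul_right_cancel₀ hFG ?_
  linear_combination -h2

theorem RT3 : RT3_stmt := by
  intro n t ht hn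
  obtain ⟨s, rfl⟩ : ∃ s, t = s + 3 := ⟨t - 3, by omega⟩
  obtain ⟨m, rfl⟩ : ∃ m, n = m + s + 7 := ⟨n - (s + 7), by omega⟩
  have e1 : m + s + 7 - 3 = m + s + 4 := by omega
  have e2 : m + s + 7 - 4 = m + s + 3 := by omega
  have e3 : s + 3 - 1 = s + 2 := by omega
  have e4 : s + 3 - 3 = s := by omega
  rw [e1, e2, e3, e4]
  refine ⟨?_, ?_, ?_⟩
  · have h := RT3_one s m
    push_cast
    linear_combination h
  · have h := RT3_two s m
    push_cast
    linear_combination h
  · have h := RT3_thr s m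
    push_cast
    linear_combination h

end Pool.Agent.helper37.NG
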